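import Mathlib
import Pool.Agent.H241R2.IRUpper
import Pool.Agent.H241R2.IRLower2

set_option autoImplicit false

namespace Pool.Agent.Results.MP_e17bc1_co.SmallerDeficit

open Pool.Agent.H241R2.IR

/-- For every board size `n ≥ 1` the upper irredundance number of the queens graph satisfies
`6 n - 27000 n ^ (log 4 / log 10) ≤ IR(Q_n) ≤ 6 n - (3 / 8) n ^ (6 / 11)`. -/
theorem result (n : ℕ) (hn : 1 ≤ n) :
    6 * (n : ℝ) - 27000 * (n : ℝ) ^ (Real.log 4 / Real.log 10)
      ≤ (upperIrredundance (queensGraph n) : ℝ) ∧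
    (upperIrredundance (queensGraph n) : ℝ) ≤ 6 * (n : ℝ) - 3 / 8 * (n : ℝ) ^ ((6 : ℝ) / 11) := by
  refine ⟨lower_real n hn, ?_⟩
  obtain ⟨S, hS, hirr⟩ := exists_upper (queensGraph n)
  rw [← hS]
  exact upper_real hn S hirr

end Pool.Agent.Results.MP_e17bc1_co.SmallerDeficit
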